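import Pool.Agent.H837.UF.Defs
import Pool.Agent.H837.AB.Defs

/-!
# Bloch's conjecture for smooth projective surfaces without holomorphic 2-forms
-/

set_option autoImplicit false

namespace Pool.Agent.H837.BL

open MvPolynomial Pool.Agent.H837.AB Pool.Agent.H837.UF

variable {K : Type} [Field K] {r N : ℕ}

/-- The vectors of homogeneous coordinates of the points of the projective variety `X` given by the
forms `F i`. -/
def Var (F : Fin N → MvPolynomial (Fin (r + 1)) K) : Set (Fin (r + 1) → K) :=
  {v | v ≠ 0 ∧ Zero F v}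

/-- `X` is irreducible as far as polynomials of degree at most `c` are concerned: there are no two of
them which are not zero on the cone of `X` and have a product which is zero there. -/
def IrrBy (c : ℕ) (F : Fin N → MvPolynomial (Fin (r + 1)) K) : Prop :=
  ¬ ∃ G : MvPolynomial (Fin (r + 1)) K, G.totalDegree ≤ c ∧
    ∃ H : MvPolynomial (Fin (r + 1)) K, H.totalDegree ≤ c ∧
      ((∀ x : Fin (r + 1) → K, Zero F x → eval x G ≠ 0 → eval x H = 0) ∧
        (∃ x : Fin (r + 1) → K, Zero F x ∧ eval x G ≠ 0) ∧
        ∃ x : Fin (r + 1) → K, Zero F x ∧ eval x H ≠ 0)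

/-- The canonical bundle of `X` has a nonzero section, given by forms with denominators of exponent
`r + 1 + c`. The degree of `F i` is `δ i`, and `e` is the codimension of `X`. -/
def FormBy (e c : ℕ) (δ : Fin N → ℕ) (F : Fin N → MvPolynomial (Fin (r + 1)) K) : Prop :=
  ∃ P : (Fin e → Fin N) × Fin (r + 1) → MvPolynomial (Fin (r + 1)) K,
    (∀ a, (P a).IsHomogeneous ((∑ i, δ (a.1 i)) + c)) ∧ IsCanonical e 1 c F P ∧
      ∃ a, ∃ x : Fin (r + 1) → K, x ≠ 0 ∧ Zero F x ∧ eval x (P a) ≠ 0

/-- For every coordinate hyperplane, every effective zero-cycle of degree `c + 1` on `X` is rationally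
equivalent, with complexity at most `c`, to an effective zero-cycle with a point on the hyperplane. -/
def MovesBy (c : ℕ) (F : Fin N → MvPolynomial (Fin (r + 1)) K) : Prop :=
  ∀ (a : Fin (r + 1)) (x : Fin (c + 1) → Fin (r + 1) → K), (∀ i, x i ∈ Var F) →
    ∃ y : Fin (c + 1) → Fin (r + 1) → K, (∀ i, y i ∈ Var F) ∧ y 0 a = 0 ∧ RatEq (Var F) c x y

/-- Bloch's conjecture over the field `K`: on a smooth irreducible projective surface whose canonical
bundle has no sections, large effective zero-cycles can be moved with bounded complexity. -/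
def Bloch (K : Type) [Field K] : Prop :=
  ∀ (e N : ℕ) (δ : Fin N → ℕ) (F : Fin N → MvPolynomial (Fin (2 + e + 1)) K),
    (∀ i, (F i).IsHomogeneous (δ i)) → (∃ b, SmoothBy e b F) → (∀ c, IrrBy c F) →
      (∀ c, ¬ FormBy e c δ F) → ∃ c, MovesBy c F

end Pool.Agent.H837.BL
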