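import Pool.Agent.H837.SP.Surf
import Pool.Agent.H837.AB.Main
import Pool.Agent.H837.BL.Defs

/-!
# Uniformity of Bloch's conjecture
-/

set_option autoImplicit false

namespace Pool.Agent.H837.BL

open MvPolynomial Pool.Agent.H837.UF Pool.Agent.H837.SP Pool.Agent.H837.UR Pool.Agent.H837.AB
open Filter hiding map

section Mono

variable {K : Type} [Field K] {r N : ℕ}

theorem IrrBy.anti {c c' : ℕ} (hcc : c ≤ c') {F : Fin N → MvPolynomial (Fin (r + 1)) K}
    (h : IrrBy c' F) : IrrBy c F := by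
  rintro ⟨G, hG, H, hH, h1⟩
  exact h ⟨G, hG.trans hcc, H, hH.trans hcc, h1⟩

theorem FormBy.mono {e c c' : ℕ} (hcc : c ≤ c') {δ : Fin N → ℕ}
    {F : Fin N → MvPolynomial (Fin (r + 1)) K} (h : FormBy e c δ F) : FormBy e c' δ F := by
  obtain ⟨P, hP, hcan, ⟨T, i⟩, x, hx, hX, hne⟩ := h
  refine ⟨fun a => X a.2 ^ (c' - c) * P a, fun a => ?_,
    fun y hy => ⟨fun T j j' => ?_, fun T T' A j => ?_⟩, ⟨T, i⟩, x, hx, hX, ?_⟩
  · have h1 := ((isHomogeneous_X K a.2).pow (c' - c)).mul (hP a)
    have h2 : 1 * (c' - c) + ((∑ i, δ (a.1 i)) + c) = (∑ i, δ (a.1 i)) + c' := by omega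
    rw [h2] at h1
    exact h1
  · have h1 := (hcan y hy).1 T j j'
    rw [eval_mul, eval_mul, eval_pow, eval_pow, eval_X, eval_X]
    have h2 : 1 * (r + 1) + c' = (1 * (r + 1) + c) + (c' - c) := by omega
    rw [h2, pow_add, pow_add]
    linear_combination (y j' ^ (c' - c) * y j ^ (c' - c)) * h1
  · have h1 := (hcan y hy).2 T T' A j
    rw [eval_mul, eval_mul, eval_pow, eval_X]
    linear_combination (y j ^ (c' - c)) * h1
  · rw [eval_mul, eval_pow, eval_X]
    refine mul_ne_zero (pow_ne_zero _ ?_) hne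
    intro h0
    obtain ⟨j', hj'⟩ : ∃ j', x j' ≠ 0 := by
      by_contra hcon
      push Not at hcon
      exact hx (_root_.funext hcon)
    have h1 := (hcan x hX).1 T i j'
    have h2 : 1 * (r + 1) + c ≠ 0 := by omega
    rw [h0, zero_pow h2, zero_mul] at h1
    exact (mul_ne_zero (pow_ne_zero _ hj') hne) h1

end Mono

section Los

variable {J : Type} {U : Ultrafilter J} {K : J → Type} [∀ j, Field (K j)] {L : Type} [Field L]
  {π : (∀ j, K j) →+* L} (hπ : IsUltra U π) {r N : ℕ}
  (F : Fin N → MvPolynomial (Fin (r + 1)) (∀ j, K j))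

include hπ

theorem irr_los (c : ℕ) : IrrBy c (lim π F) ↔ ∀ᶠ j in U, IrrBy c (at' F j) := by
  refine not_iff (ex_one hπ c fun G => ex_one hπ c fun H => and_iff ?_ (and_iff ?_ ?_))
  · exact all_vec hπ fun x => imp_iff (zero_los hπ F x) (imp_iff (not_iff (zero_iff hπ x G))
      (zero_iff hπ x H))
  · exact ex_vec hπ fun x => and_iff (zero_los hπ F x) (not_iff (zero_iff hπ x G))
  · exact ex_vec hπ fun x => and_iff (zero_los hπ F x) (not_iff (zero_iff hπ x H))

theorem form_los (e c : ℕ) (δ : Fin N → ℕ) :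
    FormBy e c δ (lim π F) ↔ ∀ᶠ j in U, FormBy e c δ (at' F j) := by
  refine ex_form hπ (fun a : (Fin e → Fin N) × Fin (r + 1) => (∑ i, δ (a.1 i)) + c)
    fun Q => and_iff (canonical_iff hπ F e 1 c Q) (ex_fin fun a => ex_vec hπ fun x =>
      and_iff (vec_ne hπ x) (and_iff (zero_los hπ F x) (not_iff (zero_iff hπ x (Q a)))))

end Los

/-! ### Moving zero-cycles -/

section Moving

variable {R : Type} [CommRing R] {r N : ℕ}

open Classical in
/-- The finite set of the polynomials `G i`. -/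
noncomputable def polys (G : Fin N → MvPolynomial (Fin (r + 1)) R) :
    Finset (MvPolynomial (Fin (r + 1)) R) := Finset.univ.image G

theorem mem_polys {G : Fin N → MvPolynomial (Fin (r + 1)) R} {P : MvPolynomial (Fin (r + 1)) R} :
    P ∈ polys G ↔ ∃ i, G i = P := by
  classical
  simp [polys]

theorem cone_polys (G : Fin N → MvPolynomial (Fin (r + 1)) R) {K : Type} [Field K] (t : R →+* K) :
    Cone (polys G) t = Var fun i => map t (G i) := by
  ext v
  show (v ≠ 0 ∧ ∀ P ∈ polys G, eval v (map t P) = 0) ↔ v ≠ 0 ∧ ∀ i, eval v (map t (G i)) = 0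
  refine and_congr_right fun _ => ?_
  constructor
  · intro h i
    exact h _ (mem_polys.mpr ⟨i, rfl⟩)
  · intro h P hP
    obtain ⟨i, rfl⟩ := mem_polys.mp hP
    exact h i

theorem sum_single {K : Type} [Field K] (t : R →+* K) (a : Fin (r + 1)) (v : Fin (r + 1) → K) :
    ∑ b, t ((Pi.single a 1 : Fin (r + 1) → R) b) * v b = v a := by
  rw [Finset.sum_eq_single a]
  · rw [Pi.single_eq_same, map_one, one_mul]
  · intro b _ hb
    rw [Pi.single_eq_of_ne hb, map_zero, zero_mul]
  · intro h
    exact absurd (Finset.mem_univ a) h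

theorem movesBy_iff (G : Fin N → MvPolynomial (Fin (r + 1)) R) {K : Type} [Field K] (t : R →+* K)
    (c : ℕ) : MovesBy c (fun i => map t (G i)) ↔
      ∀ a : Fin (r + 1), Moves (polys G) (Pi.single a 1) t c c := by
  have h1 := cone_polys G t
  unfold Moves
  rw [h1]
  simp only [sum_single]
  exact Iff.rfl

theorem MovesBy.mono {K : Type} [Field K] {c c' : ℕ} (hcc : c ≤ c')
    {F : Fin N → MvPolynomial (Fin (r + 1)) K} (h : MovesBy c F) : MovesBy c' F := by
  have h1 : (fun i => map (RingHom.id K) (F i)) = F := _root_.funext fun i => map_id _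
  rw [← h1, movesBy_iff] at h ⊢
  exact fun a => (h a).mono hcc hcc

theorem elementary (e b c : ℕ) (δ : Fin N → ℕ) (G : Fin N → MvPolynomial (Fin (r + 1)) R) :
    Elementary (R := R) (fun _ _ t => SmoothBy e b (fun i => map t (G i)) →
      IrrBy c (fun i => map t (G i)) → ¬ FormBy e c δ (fun i => map t (G i)) →
        MovesBy c fun i => map t (G i)) := by
  intro J U K _ _ L _ π hπ φ
  have h1 : (fun i => map (π.comp (RingHom.pi φ)) (G i)) =
      fun i => map π (map (RingHom.pi φ) (G i)) :=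
    _root_.funext fun i => (MvPolynomial.map_map _ _ _).symm
  have h2 : ∀ j, (fun i => map (φ j) (G i)) =
      fun i => map (Pi.evalRingHom K j) (map (RingHom.pi φ) (G i)) := by
    intro j
    have h3 : (Pi.evalRingHom K j).comp (RingHom.pi φ) = φ j := RingHom.ext fun _ => rfl
    funext i
    rw [MvPolynomial.map_map, h3]
  have h4 : MovesBy c (fun i => map (π.comp (RingHom.pi φ)) (G i)) ↔
      ∀ᶠ j in U, MovesBy c (fun i => map (φ j) (G i)) := by
    simp only [movesBy_iff]
    exact all_fin fun a => moves_elementary (polys G) (Pi.single a 1) c c J U K L π hπ φ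
  have h5 := smooth_los hπ (fun i => map (RingHom.pi φ) (G i)) e b
  have h6 := irr_los hπ (fun i => map (RingHom.pi φ) (G i)) c
  have h7 := form_los hπ (fun i => map (RingHom.pi φ) (G i)) e c δ
  have h8 : ∀ j, at' (fun i => map (RingHom.pi φ) (G i)) j = fun i => map (φ j) (G i) :=
    fun j => (h2 j).symm
  have h9 : lim π (fun i => map (RingHom.pi φ) (G i)) =
      fun i => map (π.comp (RingHom.pi φ)) (G i) := h1.symm
  rw [h9] at h5 h6 h7
  simp only [h8] at h5 h6 h7
  exact imp_iff h5 (imp_iff h6 (imp_iff (not_iff h7) h4))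

end Moving

end Pool.Agent.H837.BL
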