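import Pool.Agent.H837.BL.Main

/-!
# Equivalent forms of Bloch's conjecture
-/

set_option autoImplicit false

namespace Pool.Agent.H837.BL

open MvPolynomial Pool.Agent.H837.UF Pool.Agent.H837.SP Pool.Agent.H837.UR Pool.Agent.H837.AB
  Pool.Agent.Y148.OD

/-- Equal zero-cycles. -/
theorem ratEq_refl {K τ : Type} [Field K] [Fintype τ] {V : Set (τ → K)} {n : ℕ} {x : Fin n → τ → K}
    (hx : ∀ i, x i ∈ V) : RatEq V 0 x x := by
  refine ⟨Fin.elim0, 1, 1, fun i => i.elim0, one_ne_zero, one_ne_zero,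
    fun _ => C 1 * (UF.chow x * UF.chow Fin.elim0), fun _ => ?_, rfl, rfl, fun s => ⟨1, x, hx, ?_⟩⟩
  · have h1 := (isHomogeneous_C τ (1 : K)).mul
      ((chow_isHomogeneous x).mul (chow_isHomogeneous (Fin.elim0 : Fin 0 → τ → K)))
    rw [zero_add] at h1
    exact h1
  · rw [Fin.sum_univ_one]
    simp [UF.chow]

theorem moves_trivial {R : Type} [CommRing R] {r : ℕ} {S : Finset (MvPolynomial (Fin (r + 1)) R)}
    {a : Fin (r + 1)} {K : Type} [Field K] {t : R →+* K} (h : ∀ v ∈ Cone S t, v a = 0) (n : ℕ) :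
    Moves S (Pi.single a 1) t n 0 := by
  intro x hx
  refine ⟨x, hx, ?_, ratEq_refl hx⟩
  rw [sum_single]
  exact h _ (hx 0)

/-- Over the complex numbers zero-cycles move with bounded complexity if and only if the group of
zero-cycles modulo rational equivalence is finite-dimensional. -/
theorem movesBy_iff_finite {r N : ℕ} {δ : Fin N → ℕ} {F : Fin N → MvPolynomial (Fin (r + 1)) ℂ}
    (hF : ∀ i, (F i).IsHomogeneous (δ i)) (hX : IsVariety {x : Pt r | x.rep ∈ Var F} 2) :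
    (∃ c, MovesBy c F) ↔ ∃ c : ℕ, ∀ n, dn {x : Pt r | x.rep ∈ Var F} 2 n ≤ c := by
  obtain ⟨t, rfl⟩ := exists_homs hF
  have hfin : Finite (Expos r δ) := Finite.of_fintype (Expos r δ)
  have hft := finiteType_int (Expos r δ)
  have hRc : Countable (MvPolynomial (Expos r δ) ℤ) := countable_of_finiteType
  have hmem : {x : Pt r | x.rep ∈ Var fun i => map t (generics r δ i)} =
      Member (polys (generics r δ)) t := by
    rw [Member, cone_polys]
  rw [hmem] at hX ⊢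
  have hS : ∀ P ∈ polys (generics r δ), ∃ d : ℕ, P.IsHomogeneous d := by
    intro P hP
    obtain ⟨i, rfl⟩ := mem_polys.mp hP
    exact ⟨δ i, generics_isHomogeneous r δ i⟩
  have key : ∀ a : Fin (r + 1), (∃ v ∈ Cone (polys (generics r δ)) t, v a ≠ 0) →
      ((∃ c : ℕ, ∀ n, dn (Member (polys (generics r δ)) t) 2 n ≤ c) ↔
        ∃ c, Moves (polys (generics r δ)) (Pi.single a 1) t c c) := by
    rintro a ⟨v, hv, hva⟩
    refine finite_iff_moves hS t hX ⟨v, hv, ?_⟩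
    rw [sum_single]
    exact hva
  simp only [movesBy_iff]
  constructor
  · rintro ⟨c, hc⟩
    obtain ⟨x, hx⟩ := hX.irred.1
    have hx' : x.rep ∈ Cone (polys (generics r δ)) t := hx
    obtain ⟨a, ha⟩ : ∃ a, x.rep a ≠ 0 := by
      by_contra hcon
      push Not at hcon
      exact hx'.1 (_root_.funext hcon)
    exact (key a ⟨_, hx', ha⟩).mpr ⟨c, hc a⟩
  · intro h
    have h1 : ∀ a : Fin (r + 1), ∃ c, Moves (polys (generics r δ)) (Pi.single a 1) t c c := by
      intro a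
      by_cases ha : ∃ v ∈ Cone (polys (generics r δ)) t, v a ≠ 0
      · exact (key a ha).mp h
      · push Not at ha
        exact ⟨0, moves_trivial ha 0⟩
    choose c hc using h1
    refine ⟨Finset.univ.sup c, fun a => (hc a).mono ?_ ?_⟩
    · exact Finset.le_sup (f := c) (Finset.mem_univ a)
    · exact Finset.le_sup (f := c) (Finset.mem_univ a)

theorem family_tfae (r N e b : ℕ) (δ : Fin N → ℕ) :
    [∀ F : Fin N → MvPolynomial (Fin (r + 1)) ℂ, (∀ i, (F i).IsHomogeneous (δ i)) →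
       SmoothBy e b F → (∀ c, IrrBy c F) → (∀ c, ¬ FormBy e c δ F) → ∃ c, MovesBy c F,
     ∃ c M : ℕ, M ≠ 0 ∧ ∀ (K : Type) [Field K] [IsAlgClosed K], (M : K) ≠ 0 →
       ∀ F : Fin N → MvPolynomial (Fin (r + 1)) K, (∀ i, (F i).IsHomogeneous (δ i)) →
         SmoothBy e b F → IrrBy c F → ¬ FormBy e c δ F → MovesBy c F,
     ∃ c ℓ₀ : ℕ, ∀ (ℓ : ℕ) [Fact ℓ.Prime], ℓ₀ ≤ ℓ →
       ∀ F : Fin N → MvPolynomial (Fin (r + 1)) (AlgebraicClosure (ZMod ℓ)),
         (∀ i, (F i).IsHomogeneous (δ i)) → SmoothBy e b F → IrrBy c F → ¬ FormBy e c δ F →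
           MovesBy c F,
     ∃ c : ℕ, ∀ ℓ₀ : ℕ, ∃ (ℓ : ℕ) (_ : Fact ℓ.Prime), ℓ₀ ≤ ℓ ∧
       ∀ F : Fin N → MvPolynomial (Fin (r + 1)) (AlgebraicClosure (ZMod ℓ)),
         (∀ i, (F i).IsHomogeneous (δ i)) → SmoothBy e b F → IrrBy c F → ¬ FormBy e c δ F →
           MovesBy c F].TFAE := by
  have hfin : Finite (Expos r δ) := Finite.of_fintype (Expos r δ)
  have hft := finiteType_int (Expos r δ)
  have hT := uniform_tfae (R := MvPolynomial (Expos r δ) ℤ)
    (Q := fun c K _ t => SmoothBy e b (fun i => map t (generics r δ i)) →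
      IrrBy c (fun i => map t (generics r δ i)) →
        ¬ FormBy e c δ (fun i => map t (generics r δ i)) →
          MovesBy c fun i => map t (generics r δ i))
    (fun c => elementary e b c δ (generics r δ))
    (fun c c' hcc K _ φ h h1 h2 h3 => (h h1 (h2.anti hcc) fun h4 => h3 (h4.mono hcc)).mono hcc)
  have hdeg : ∀ (K : Type) [Field K] (t : MvPolynomial (Expos r δ) ℤ →+* K) (i : Fin N),
      (map t (generics r δ i)).IsHomogeneous (δ i) := fun K _ t i =>
    (generics_isHomogeneous r δ i).map t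
  have key : ∀ (c : ℕ) (K : Type) [Field K],
      (∀ t : MvPolynomial (Expos r δ) ℤ →+* K, SmoothBy e b (fun i => map t (generics r δ i)) →
        IrrBy c (fun i => map t (generics r δ i)) →
          ¬ FormBy e c δ (fun i => map t (generics r δ i)) →
            MovesBy c fun i => map t (generics r δ i)) ↔
      ∀ F : Fin N → MvPolynomial (Fin (r + 1)) K, (∀ i, (F i).IsHomogeneous (δ i)) →
        SmoothBy e b F → IrrBy c F → ¬ FormBy e c δ F → MovesBy c F := by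
    intro c K _
    constructor
    · intro h F hF h1 h2 h3
      obtain ⟨t, rfl⟩ := exists_homs hF
      exact h t h1 h2 h3
    · intro h t h1 h2 h3
      exact h _ (hdeg K t) h1 h2 h3
  tfae_have 1 → 2 := by
    intro h
    have h02 := hT.out 0 2
    obtain ⟨c, M, hM, hc⟩ := h02.mp fun t => by
      by_cases h1 : SmoothBy e b (fun i => map t (generics r δ i))
      · by_cases h2 : ∀ c, IrrBy c fun i => map t (generics r δ i)
        · by_cases h3 : ∀ c, ¬ FormBy e c δ fun i => map t (generics r δ i)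
          · obtain ⟨c, hc⟩ := h _ (hdeg ℂ t) h1 h2 h3
            exact ⟨c, fun _ _ _ => hc⟩
          · push Not at h3
            obtain ⟨k, hk⟩ := h3
            exact ⟨k, fun _ _ h4 => absurd hk h4⟩
        · push Not at h2
          obtain ⟨k, hk⟩ := h2
          exact ⟨k, fun _ h3 => absurd h3 hk⟩
      · exact ⟨0, fun h3 => absurd h3 h1⟩
    exact ⟨c, M, hM, fun K _ _ hMK => (key c K).mp fun t => hc K t hMK⟩
  tfae_have 2 → 3 := by
    rintro ⟨c, M, hM, hc⟩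
    refine ⟨c, M + 1, fun ℓ hℓ hle => hc _ ?_⟩
    intro h0
    rw [CharP.cast_eq_zero_iff (AlgebraicClosure (ZMod ℓ)) ℓ] at h0
    have h3 := Nat.le_of_dvd (Nat.pos_of_ne_zero hM) h0
    omega
  tfae_have 3 → 4 := by
    rintro ⟨c, ℓ₀, hc⟩
    refine ⟨c, fun ℓ₁ => ?_⟩
    obtain ⟨ℓ, hle, hℓ⟩ := Nat.exists_infinite_primes (max ℓ₀ ℓ₁)
    have hf : Fact ℓ.Prime := ⟨hℓ⟩
    exact ⟨ℓ, hf, (le_max_right _ _).trans hle, hc ℓ ((le_max_left _ _).trans hle)⟩
  tfae_have 4 → 1 := by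
    rintro ⟨c, hc⟩
    have h41 := hT.out 4 1
    obtain ⟨c', hc'⟩ := h41.mp ⟨c, fun ℓ₀ => by
      obtain ⟨ℓ, hf, hle, h⟩ := hc ℓ₀
      exact ⟨ℓ, hf, hle, (key c _).mpr h⟩⟩
    intro F hF h1 h2 h3
    exact ⟨c', (key c' ℂ).mp hc' F hF h1 (h2 c') (h3 c')⟩
  tfae_finish

/-- **Bloch's conjecture and bounded statements over finite fields.** -/
theorem bloch_tfae :
    [∀ (K : Type) [Field K] [IsAlgClosed K] [CharZero K], Bloch K,
     Bloch ℂ,
     ∀ (e N b : ℕ) (δ : Fin N → ℕ), ∃ c M : ℕ, M ≠ 0 ∧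
       ∀ (K : Type) [Field K] [IsAlgClosed K], (M : K) ≠ 0 →
       ∀ F : Fin N → MvPolynomial (Fin (2 + e + 1)) K, (∀ i, (F i).IsHomogeneous (δ i)) →
         SmoothBy e b F → IrrBy c F → ¬ FormBy e c δ F → MovesBy c F,
     ∀ (e N b : ℕ) (δ : Fin N → ℕ), ∃ c ℓ₀ : ℕ, ∀ (ℓ : ℕ) [Fact ℓ.Prime], ℓ₀ ≤ ℓ →
       ∀ F : Fin N → MvPolynomial (Fin (2 + e + 1)) (AlgebraicClosure (ZMod ℓ)),
         (∀ i, (F i).IsHomogeneous (δ i)) → SmoothBy e b F → IrrBy c F → ¬ FormBy e c δ F →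
           MovesBy c F,
     ∀ (e N b : ℕ) (δ : Fin N → ℕ), ∃ c : ℕ, ∀ ℓ₀ : ℕ, ∃ (ℓ : ℕ) (_ : Fact ℓ.Prime), ℓ₀ ≤ ℓ ∧
       ∀ F : Fin N → MvPolynomial (Fin (2 + e + 1)) (AlgebraicClosure (ZMod ℓ)),
         (∀ i, (F i).IsHomogeneous (δ i)) → SmoothBy e b F → IrrBy c F → ¬ FormBy e c δ F →
           MovesBy c F].TFAE := by
  tfae_have 1 → 2 := fun h => h ℂ
  tfae_have 2 → 3 := by
    intro h e N b δ
    exact ((family_tfae (2 + e) N e b δ).out 0 1).mp fun F hF h1 h2 h3 =>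
      h e N δ F hF ⟨b, h1⟩ h2 h3
  tfae_have 3 → 1 := by
    intro h K _ _ _ e N δ F hF h1 h2 h3
    obtain ⟨b, hb⟩ := h1
    obtain ⟨c, M, hM, hc⟩ := h e N b δ
    exact ⟨c, hc K (Nat.cast_ne_zero.mpr hM) F hF hb (h2 c) (h3 c)⟩
  tfae_have 3 ↔ 4 := forall_congr' fun e => forall_congr' fun N =>
    forall_congr' fun b => forall_congr' fun δ => (family_tfae (2 + e) N e b δ).out 1 2
  tfae_have 3 ↔ 5 := forall_congr' fun e => forall_congr' fun N =>
    forall_congr' fun b => forall_congr' fun δ => (family_tfae (2 + e) N e b δ).out 1 3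
  tfae_finish

end Pool.Agent.H837.BL
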