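import Pool.Agent.H837.UR.Qbar
import Pool.Agent.H837.BL.Tfae

/-!
# Bloch's conjecture and surfaces over the algebraic numbers
-/

set_option autoImplicit false

namespace Pool.Agent.H837.BL

open MvPolynomial Pool.Agent.H837.UF Pool.Agent.H837.SP Pool.Agent.H837.UR Pool.Agent.H837.AB
open Filter hiding map

/-- A uniform statement over the algebraic numbers is true over the complex numbers. -/
theorem of_qbar {r N : ℕ} (e b c : ℕ) (δ : Fin N → ℕ)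
    (h : ∀ F : Fin N → MvPolynomial (Fin (r + 1)) (AlgebraicClosure ℚ),
      (∀ i, (F i).IsHomogeneous (δ i)) → SmoothBy e b F → IrrBy c F → ¬ FormBy e c δ F →
        MovesBy c F) (F : Fin N → MvPolynomial (Fin (r + 1)) ℂ)
    (hF : ∀ i, (F i).IsHomogeneous (δ i)) (h1 : SmoothBy e b F) (h2 : IrrBy c F)
    (h3 : ¬ FormBy e c δ F) : MovesBy c F := by
  obtain ⟨π, hπ⟩ := exists_ultra_qbar
  choose Q hQ hQF using fun i => hπ.exists_lift (hF i)
  obtain rfl : (fun i => map π (Q i)) = F := _root_.funext hQF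
  have h4 := elementary e b c δ Q ℕ (hyperfilter ℕ) (fun _ => AlgebraicClosure ℚ) ℂ π hπ
    fun j => Pi.evalRingHom _ j
  have h5 : π.comp (RingHom.pi fun j => Pi.evalRingHom (fun _ : ℕ => AlgebraicClosure ℚ) j) = π :=
    RingHom.ext fun _ => rfl
  rw [h5] at h4
  exact h4.mpr (Eventually.of_forall fun j => h _ fun i => (hQ i).map _) h1 h2 h3

/-- **Bloch's conjecture, surfaces over the algebraic numbers, and bounded statements over finite
fields.** -/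
theorem bloch_tfae_qbar :
    [∀ (K : Type) [Field K] [IsAlgClosed K] [CharZero K], Bloch K,
     Bloch ℂ,
     ∀ (e N b : ℕ) (δ : Fin N → ℕ), ∃ c M : ℕ, M ≠ 0 ∧
       ∀ (K : Type) [Field K] [IsAlgClosed K], (M : K) ≠ 0 →
       ∀ F : Fin N → MvPolynomial (Fin (2 + e + 1)) K, (∀ i, (F i).IsHomogeneous (δ i)) →
         SmoothBy e b F → IrrBy c F → ¬ FormBy e c δ F → MovesBy c F,
     ∀ (e N b : ℕ) (δ : Fin N → ℕ), ∃ c : ℕ,
       ∀ F : Fin N → MvPolynomial (Fin (2 + e + 1)) (AlgebraicClosure ℚ),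
         (∀ i, (F i).IsHomogeneous (δ i)) → SmoothBy e b F → IrrBy c F → ¬ FormBy e c δ F →
           MovesBy c F,
     ∀ (e N b : ℕ) (δ : Fin N → ℕ), ∃ c ℓ₀ : ℕ, ∀ (ℓ : ℕ) [Fact ℓ.Prime], ℓ₀ ≤ ℓ →
       ∀ F : Fin N → MvPolynomial (Fin (2 + e + 1)) (AlgebraicClosure (ZMod ℓ)),
         (∀ i, (F i).IsHomogeneous (δ i)) → SmoothBy e b F → IrrBy c F → ¬ FormBy e c δ F →
           MovesBy c F,
     ∀ (e N b : ℕ) (δ : Fin N → ℕ), ∃ c : ℕ, ∀ ℓ₀ : ℕ, ∃ (ℓ : ℕ) (_ : Fact ℓ.Prime), ℓ₀ ≤ ℓ ∧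
       ∀ F : Fin N → MvPolynomial (Fin (2 + e + 1)) (AlgebraicClosure (ZMod ℓ)),
         (∀ i, (F i).IsHomogeneous (δ i)) → SmoothBy e b F → IrrBy c F → ¬ FormBy e c δ F →
           MovesBy c F].TFAE := by
  have h := bloch_tfae
  tfae_have 1 ↔ 2 := h.out 0 1
  tfae_have 2 ↔ 3 := h.out 1 2
  tfae_have 3 ↔ 5 := h.out 2 3
  tfae_have 3 ↔ 6 := h.out 2 4
  tfae_have 3 → 4 := by
    intro h e N b δ
    obtain ⟨c, M, hM, hc⟩ := h e N b δ
    exact ⟨c, hc (AlgebraicClosure ℚ) (Nat.cast_ne_zero.mpr hM)⟩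
  tfae_have 4 → 2 := by
    rintro h e N δ F hF ⟨b, hb⟩ h2 h3
    obtain ⟨c, hc⟩ := h e N b δ
    exact ⟨c, of_qbar e b c δ hc F hF hb (h2 c) (h3 c)⟩
  tfae_finish

end Pool.Agent.H837.BL
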